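import Pool.Agent.Helper22.QC.Fast
import Pool.Agent.Helper22.QC.A.TFD

namespace Pool.Agent.Helper22.QC.A

open Pool.Agent.Helper22.QC.F

theorem feA_env : feA.env = envA := rfl

/-- computable form of the correctness of the masks -/
def okB (ps : List PS) (ls : List LS) : Bool :=
  (ps.all fun d => (d.zs.all fun z => Nat.beq z.m1 (QC.mk 1 z.A) && Nat.beq z.m40 (QC.mk 40 z.A)) &&
    d.ls.all fun z => Nat.beq z.m40 (QC.mk 40 z.A)) && ls.all fun z => Nat.beq z.m40 (QC.mk 40 z.A)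

theorem okB_sound (E : FE) (h : okB E.pd E.lv = true) : E.ok := by
  simp only [okB, Bool.and_eq_true, List.all_eq_true] at h
  refine ⟨fun d hd => ⟨fun z hz => ⟨?_, ?_⟩, fun z hz => ?_⟩, fun z hz => ?_⟩
  · exact Nat.eq_of_beq_eq_true ((h.1 d hd).1 z hz).1
  · exact Nat.eq_of_beq_eq_true ((h.1 d hd).1 z hz).2
  · exact Nat.eq_of_beq_eq_true ((h.1 d hd).2 z hz)
  · exact Nat.eq_of_beq_eq_true (h.2 z hz)

theorem feA_ok : feA.ok := okB_sound feA (by decide +kernel)

theorem lvA_eq : feA.lv.map LS.A = lvA := rfl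

theorem chunkA (t : Tr) (i : ℕ) (rs : List Rc) (h : F.chunk feA lvA t rs i = true) :
    QC.chunk envA t i rs = true := by
  rw [← feA_env, chunk_eq feA feA_ok, lvA_eq]
  exact h

end Pool.Agent.Helper22.QC.A
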