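import Pool.Agent.Helper22.QC.A.C00
import Pool.Agent.Helper22.QC.A.C01
import Pool.Agent.Helper22.QC.A.C02
import Pool.Agent.Helper22.QC.A.C03
import Pool.Agent.Helper22.QC.A.C04
import Pool.Agent.Helper22.QC.A.C05
import Pool.Agent.Helper22.QC.A.C06
import Pool.Agent.Helper22.QC.A.C07
import Pool.Agent.Helper22.QC.A.C08
import Pool.Agent.Helper22.QC.A.C09
import Pool.Agent.Helper22.QC.A.C10
import Pool.Agent.Helper22.QC.A.C11
import Pool.Agent.Helper22.QC.A.C12
import Pool.Agent.Helper22.QC.A.C13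
import Pool.Agent.Helper22.QC.A.C14
import Pool.Agent.Helper22.QC.A.C15
import Pool.Agent.Helper22.QC.A.C16
import Pool.Agent.Helper22.QC.A.C17
import Pool.Agent.Helper22.QC.A.C18
import Pool.Agent.Helper22.QC.A.C19
import Pool.Agent.Helper22.QC.A.C20
import Pool.Agent.Helper22.QC.A.C21
import Pool.Agent.Helper22.QC.A.C22
import Pool.Agent.Helper22.QC.A.C23
import Pool.Agent.Helper22.QC.A.C24
import Pool.Agent.Helper22.QC.A.TF
import Pool.Agent.Helper22.QC.Lem.M11
import Pool.Agent.Helper22.QC.Lem.M12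

/-!
# All records of the certificate for the potential `potA`
-/

namespace Pool.Agent.Helper22.QC.A

theorem stepA (i : ℕ) (rs : List Rc) (h : F.chunk feA lvA regs rs i = true) (n : ℕ)
    (hn : (i + rs.length == n) = true) (hp : ∀ j < i, Holds potA 4308993 (regs.reg j)) :
    ∀ j < n, Holds potA 4308993 (regs.reg j) := by
  have e : i + rs.length = n := by simpa using hn
  rw [← e]
  exact chunk_sound envA envA_ok regs i rs (chunkA regs i rs h) hp

theorem start : ∀ j < 0, Holds potA 4308993 (regs.reg j) := fun j hj => absurd hj (Nat.not_lt_zero j)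

theorem h00_0 : ∀ j < 60, Holds potA 4308993 (regs.reg j) :=
  stepA 0 recs00_0 ok00_0 60 (by decide +kernel) start

theorem h00_1 : ∀ j < 120, Holds potA 4308993 (regs.reg j) :=
  stepA 60 recs00_1 ok00_1 120 (by decide +kernel) h00_0

theorem h00_2 : ∀ j < 180, Holds potA 4308993 (regs.reg j) :=
  stepA 120 recs00_2 ok00_2 180 (by decide +kernel) h00_1

theorem h00_3 : ∀ j < 240, Holds potA 4308993 (regs.reg j) :=
  stepA 180 recs00_3 ok00_3 240 (by decide +kernel) h00_2

theorem h00_4 : ∀ j < 300, Holds potA 4308993 (regs.reg j) :=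
  stepA 240 recs00_4 ok00_4 300 (by decide +kernel) h00_3

theorem h00_5 : ∀ j < 360, Holds potA 4308993 (regs.reg j) :=
  stepA 300 recs00_5 ok00_5 360 (by decide +kernel) h00_4

theorem h00_6 : ∀ j < 420, Holds potA 4308993 (regs.reg j) :=
  stepA 360 recs00_6 ok00_6 420 (by decide +kernel) h00_5

theorem h00_7 : ∀ j < 480, Holds potA 4308993 (regs.reg j) :=
  stepA 420 recs00_7 ok00_7 480 (by decide +kernel) h00_6

theorem h00_8 : ∀ j < 486, Holds potA 4308993 (regs.reg j) :=
  stepA 480 recs00_8 ok00_8 486 (by decide +kernel) h00_7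

theorem h01_0 : ∀ j < 546, Holds potA 4308993 (regs.reg j) :=
  stepA 486 recs01_0 ok01_0 546 (by decide +kernel) h00_8

theorem h01_1 : ∀ j < 606, Holds potA 4308993 (regs.reg j) :=
  stepA 546 recs01_1 ok01_1 606 (by decide +kernel) h01_0

theorem h01_2 : ∀ j < 666, Holds potA 4308993 (regs.reg j) :=
  stepA 606 recs01_2 ok01_2 666 (by decide +kernel) h01_1

theorem h01_3 : ∀ j < 726, Holds potA 4308993 (regs.reg j) :=
  stepA 666 recs01_3 ok01_3 726 (by decide +kernel) h01_2

theorem h01_4 : ∀ j < 786, Holds potA 4308993 (regs.reg j) :=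
  stepA 726 recs01_4 ok01_4 786 (by decide +kernel) h01_3

theorem h01_5 : ∀ j < 846, Holds potA 4308993 (regs.reg j) :=
  stepA 786 recs01_5 ok01_5 846 (by decide +kernel) h01_4

theorem h01_6 : ∀ j < 906, Holds potA 4308993 (regs.reg j) :=
  stepA 846 recs01_6 ok01_6 906 (by decide +kernel) h01_5

theorem h01_7 : ∀ j < 966, Holds potA 4308993 (regs.reg j) :=
  stepA 906 recs01_7 ok01_7 966 (by decide +kernel) h01_6

theorem h01_8 : ∀ j < 972, Holds potA 4308993 (regs.reg j) :=
  stepA 966 recs01_8 ok01_8 972 (by decide +kernel) h01_7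

theorem h02_0 : ∀ j < 1032, Holds potA 4308993 (regs.reg j) :=
  stepA 972 recs02_0 ok02_0 1032 (by decide +kernel) h01_8

theorem h02_1 : ∀ j < 1092, Holds potA 4308993 (regs.reg j) :=
  stepA 1032 recs02_1 ok02_1 1092 (by decide +kernel) h02_0

theorem h02_2 : ∀ j < 1152, Holds potA 4308993 (regs.reg j) :=
  stepA 1092 recs02_2 ok02_2 1152 (by decide +kernel) h02_1

theorem h02_3 : ∀ j < 1212, Holds potA 4308993 (regs.reg j) :=
  stepA 1152 recs02_3 ok02_3 1212 (by decide +kernel) h02_2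

theorem h02_4 : ∀ j < 1272, Holds potA 4308993 (regs.reg j) :=
  stepA 1212 recs02_4 ok02_4 1272 (by decide +kernel) h02_3

theorem h02_5 : ∀ j < 1332, Holds potA 4308993 (regs.reg j) :=
  stepA 1272 recs02_5 ok02_5 1332 (by decide +kernel) h02_4

theorem h02_6 : ∀ j < 1392, Holds potA 4308993 (regs.reg j) :=
  stepA 1332 recs02_6 ok02_6 1392 (by decide +kernel) h02_5

theorem h02_7 : ∀ j < 1452, Holds potA 4308993 (regs.reg j) :=
  stepA 1392 recs02_7 ok02_7 1452 (by decide +kernel) h02_6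

theorem h02_8 : ∀ j < 1458, Holds potA 4308993 (regs.reg j) :=
  stepA 1452 recs02_8 ok02_8 1458 (by decide +kernel) h02_7

theorem h03_0 : ∀ j < 1518, Holds potA 4308993 (regs.reg j) :=
  stepA 1458 recs03_0 ok03_0 1518 (by decide +kernel) h02_8

theorem h03_1 : ∀ j < 1578, Holds potA 4308993 (regs.reg j) :=
  stepA 1518 recs03_1 ok03_1 1578 (by decide +kernel) h03_0

theorem h03_2 : ∀ j < 1638, Holds potA 4308993 (regs.reg j) :=
  stepA 1578 recs03_2 ok03_2 1638 (by decide +kernel) h03_1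

theorem h03_3 : ∀ j < 1698, Holds potA 4308993 (regs.reg j) :=
  stepA 1638 recs03_3 ok03_3 1698 (by decide +kernel) h03_2

theorem h03_4 : ∀ j < 1758, Holds potA 4308993 (regs.reg j) :=
  stepA 1698 recs03_4 ok03_4 1758 (by decide +kernel) h03_3

theorem h03_5 : ∀ j < 1818, Holds potA 4308993 (regs.reg j) :=
  stepA 1758 recs03_5 ok03_5 1818 (by decide +kernel) h03_4

theorem h03_6 : ∀ j < 1878, Holds potA 4308993 (regs.reg j) :=
  stepA 1818 recs03_6 ok03_6 1878 (by decide +kernel) h03_5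

theorem h03_7 : ∀ j < 1938, Holds potA 4308993 (regs.reg j) :=
  stepA 1878 recs03_7 ok03_7 1938 (by decide +kernel) h03_6

theorem h03_8 : ∀ j < 1944, Holds potA 4308993 (regs.reg j) :=
  stepA 1938 recs03_8 ok03_8 1944 (by decide +kernel) h03_7

theorem h04_0 : ∀ j < 2004, Holds potA 4308993 (regs.reg j) :=
  stepA 1944 recs04_0 ok04_0 2004 (by decide +kernel) h03_8

theorem h04_1 : ∀ j < 2064, Holds potA 4308993 (regs.reg j) :=
  stepA 2004 recs04_1 ok04_1 2064 (by decide +kernel) h04_0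

theorem h04_2 : ∀ j < 2124, Holds potA 4308993 (regs.reg j) :=
  stepA 2064 recs04_2 ok04_2 2124 (by decide +kernel) h04_1

theorem h04_3 : ∀ j < 2184, Holds potA 4308993 (regs.reg j) :=
  stepA 2124 recs04_3 ok04_3 2184 (by decide +kernel) h04_2

theorem h04_4 : ∀ j < 2244, Holds potA 4308993 (regs.reg j) :=
  stepA 2184 recs04_4 ok04_4 2244 (by decide +kernel) h04_3

theorem h04_5 : ∀ j < 2304, Holds potA 4308993 (regs.reg j) :=
  stepA 2244 recs04_5 ok04_5 2304 (by decide +kernel) h04_4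

theorem h04_6 : ∀ j < 2364, Holds potA 4308993 (regs.reg j) :=
  stepA 2304 recs04_6 ok04_6 2364 (by decide +kernel) h04_5

theorem h04_7 : ∀ j < 2424, Holds potA 4308993 (regs.reg j) :=
  stepA 2364 recs04_7 ok04_7 2424 (by decide +kernel) h04_6

theorem h04_8 : ∀ j < 2430, Holds potA 4308993 (regs.reg j) :=
  stepA 2424 recs04_8 ok04_8 2430 (by decide +kernel) h04_7

theorem h05_0 : ∀ j < 2490, Holds potA 4308993 (regs.reg j) :=
  stepA 2430 recs05_0 ok05_0 2490 (by decide +kernel) h04_8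

theorem h05_1 : ∀ j < 2550, Holds potA 4308993 (regs.reg j) :=
  stepA 2490 recs05_1 ok05_1 2550 (by decide +kernel) h05_0

theorem h05_2 : ∀ j < 2610, Holds potA 4308993 (regs.reg j) :=
  stepA 2550 recs05_2 ok05_2 2610 (by decide +kernel) h05_1

theorem h05_3 : ∀ j < 2670, Holds potA 4308993 (regs.reg j) :=
  stepA 2610 recs05_3 ok05_3 2670 (by decide +kernel) h05_2

theorem h05_4 : ∀ j < 2730, Holds potA 4308993 (regs.reg j) :=
  stepA 2670 recs05_4 ok05_4 2730 (by decide +kernel) h05_3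

theorem h05_5 : ∀ j < 2790, Holds potA 4308993 (regs.reg j) :=
  stepA 2730 recs05_5 ok05_5 2790 (by decide +kernel) h05_4

theorem h05_6 : ∀ j < 2850, Holds potA 4308993 (regs.reg j) :=
  stepA 2790 recs05_6 ok05_6 2850 (by decide +kernel) h05_5

theorem h05_7 : ∀ j < 2910, Holds potA 4308993 (regs.reg j) :=
  stepA 2850 recs05_7 ok05_7 2910 (by decide +kernel) h05_6

theorem h05_8 : ∀ j < 2916, Holds potA 4308993 (regs.reg j) :=
  stepA 2910 recs05_8 ok05_8 2916 (by decide +kernel) h05_7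

theorem h06_0 : ∀ j < 2976, Holds potA 4308993 (regs.reg j) :=
  stepA 2916 recs06_0 ok06_0 2976 (by decide +kernel) h05_8

theorem h06_1 : ∀ j < 3036, Holds potA 4308993 (regs.reg j) :=
  stepA 2976 recs06_1 ok06_1 3036 (by decide +kernel) h06_0

theorem h06_2 : ∀ j < 3096, Holds potA 4308993 (regs.reg j) :=
  stepA 3036 recs06_2 ok06_2 3096 (by decide +kernel) h06_1

theorem h06_3 : ∀ j < 3156, Holds potA 4308993 (regs.reg j) :=
  stepA 3096 recs06_3 ok06_3 3156 (by decide +kernel) h06_2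

theorem h06_4 : ∀ j < 3216, Holds potA 4308993 (regs.reg j) :=
  stepA 3156 recs06_4 ok06_4 3216 (by decide +kernel) h06_3

theorem h06_5 : ∀ j < 3276, Holds potA 4308993 (regs.reg j) :=
  stepA 3216 recs06_5 ok06_5 3276 (by decide +kernel) h06_4

theorem h06_6 : ∀ j < 3336, Holds potA 4308993 (regs.reg j) :=
  stepA 3276 recs06_6 ok06_6 3336 (by decide +kernel) h06_5

theorem h06_7 : ∀ j < 3396, Holds potA 4308993 (regs.reg j) :=
  stepA 3336 recs06_7 ok06_7 3396 (by decide +kernel) h06_6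

theorem h06_8 : ∀ j < 3402, Holds potA 4308993 (regs.reg j) :=
  stepA 3396 recs06_8 ok06_8 3402 (by decide +kernel) h06_7

theorem h07_0 : ∀ j < 3462, Holds potA 4308993 (regs.reg j) :=
  stepA 3402 recs07_0 ok07_0 3462 (by decide +kernel) h06_8

theorem h07_1 : ∀ j < 3522, Holds potA 4308993 (regs.reg j) :=
  stepA 3462 recs07_1 ok07_1 3522 (by decide +kernel) h07_0

theorem h07_2 : ∀ j < 3582, Holds potA 4308993 (regs.reg j) :=
  stepA 3522 recs07_2 ok07_2 3582 (by decide +kernel) h07_1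

theorem h07_3 : ∀ j < 3642, Holds potA 4308993 (regs.reg j) :=
  stepA 3582 recs07_3 ok07_3 3642 (by decide +kernel) h07_2

theorem h07_4 : ∀ j < 3702, Holds potA 4308993 (regs.reg j) :=
  stepA 3642 recs07_4 ok07_4 3702 (by decide +kernel) h07_3

theorem h07_5 : ∀ j < 3762, Holds potA 4308993 (regs.reg j) :=
  stepA 3702 recs07_5 ok07_5 3762 (by decide +kernel) h07_4

theorem h07_6 : ∀ j < 3822, Holds potA 4308993 (regs.reg j) :=
  stepA 3762 recs07_6 ok07_6 3822 (by decide +kernel) h07_5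

theorem h07_7 : ∀ j < 3882, Holds potA 4308993 (regs.reg j) :=
  stepA 3822 recs07_7 ok07_7 3882 (by decide +kernel) h07_6

theorem h07_8 : ∀ j < 3888, Holds potA 4308993 (regs.reg j) :=
  stepA 3882 recs07_8 ok07_8 3888 (by decide +kernel) h07_7

theorem h08_0 : ∀ j < 3948, Holds potA 4308993 (regs.reg j) :=
  stepA 3888 recs08_0 ok08_0 3948 (by decide +kernel) h07_8

theorem h08_1 : ∀ j < 4008, Holds potA 4308993 (regs.reg j) :=
  stepA 3948 recs08_1 ok08_1 4008 (by decide +kernel) h08_0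

theorem h08_2 : ∀ j < 4068, Holds potA 4308993 (regs.reg j) :=
  stepA 4008 recs08_2 ok08_2 4068 (by decide +kernel) h08_1

theorem h08_3 : ∀ j < 4128, Holds potA 4308993 (regs.reg j) :=
  stepA 4068 recs08_3 ok08_3 4128 (by decide +kernel) h08_2

theorem h08_4 : ∀ j < 4188, Holds potA 4308993 (regs.reg j) :=
  stepA 4128 recs08_4 ok08_4 4188 (by decide +kernel) h08_3

theorem h08_5 : ∀ j < 4248, Holds potA 4308993 (regs.reg j) :=
  stepA 4188 recs08_5 ok08_5 4248 (by decide +kernel) h08_4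

theorem h08_6 : ∀ j < 4308, Holds potA 4308993 (regs.reg j) :=
  stepA 4248 recs08_6 ok08_6 4308 (by decide +kernel) h08_5

theorem h08_7 : ∀ j < 4368, Holds potA 4308993 (regs.reg j) :=
  stepA 4308 recs08_7 ok08_7 4368 (by decide +kernel) h08_6

theorem h08_8 : ∀ j < 4374, Holds potA 4308993 (regs.reg j) :=
  stepA 4368 recs08_8 ok08_8 4374 (by decide +kernel) h08_7

theorem h09_0 : ∀ j < 4434, Holds potA 4308993 (regs.reg j) :=
  stepA 4374 recs09_0 ok09_0 4434 (by decide +kernel) h08_8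

theorem h09_1 : ∀ j < 4494, Holds potA 4308993 (regs.reg j) :=
  stepA 4434 recs09_1 ok09_1 4494 (by decide +kernel) h09_0

theorem h09_2 : ∀ j < 4554, Holds potA 4308993 (regs.reg j) :=
  stepA 4494 recs09_2 ok09_2 4554 (by decide +kernel) h09_1

theorem h09_3 : ∀ j < 4614, Holds potA 4308993 (regs.reg j) :=
  stepA 4554 recs09_3 ok09_3 4614 (by decide +kernel) h09_2

theorem h09_4 : ∀ j < 4674, Holds potA 4308993 (regs.reg j) :=
  stepA 4614 recs09_4 ok09_4 4674 (by decide +kernel) h09_3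

theorem h09_5 : ∀ j < 4734, Holds potA 4308993 (regs.reg j) :=
  stepA 4674 recs09_5 ok09_5 4734 (by decide +kernel) h09_4

theorem h09_6 : ∀ j < 4794, Holds potA 4308993 (regs.reg j) :=
  stepA 4734 recs09_6 ok09_6 4794 (by decide +kernel) h09_5

theorem h09_7 : ∀ j < 4854, Holds potA 4308993 (regs.reg j) :=
  stepA 4794 recs09_7 ok09_7 4854 (by decide +kernel) h09_6

theorem h09_8 : ∀ j < 4860, Holds potA 4308993 (regs.reg j) :=
  stepA 4854 recs09_8 ok09_8 4860 (by decide +kernel) h09_7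

theorem h10_0 : ∀ j < 4920, Holds potA 4308993 (regs.reg j) :=
  stepA 4860 recs10_0 ok10_0 4920 (by decide +kernel) h09_8

theorem h10_1 : ∀ j < 4980, Holds potA 4308993 (regs.reg j) :=
  stepA 4920 recs10_1 ok10_1 4980 (by decide +kernel) h10_0

theorem h10_2 : ∀ j < 5040, Holds potA 4308993 (regs.reg j) :=
  stepA 4980 recs10_2 ok10_2 5040 (by decide +kernel) h10_1

theorem h10_3 : ∀ j < 5100, Holds potA 4308993 (regs.reg j) :=
  stepA 5040 recs10_3 ok10_3 5100 (by decide +kernel) h10_2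

theorem h10_4 : ∀ j < 5160, Holds potA 4308993 (regs.reg j) :=
  stepA 5100 recs10_4 ok10_4 5160 (by decide +kernel) h10_3

theorem h10_5 : ∀ j < 5220, Holds potA 4308993 (regs.reg j) :=
  stepA 5160 recs10_5 ok10_5 5220 (by decide +kernel) h10_4

theorem h10_6 : ∀ j < 5280, Holds potA 4308993 (regs.reg j) :=
  stepA 5220 recs10_6 ok10_6 5280 (by decide +kernel) h10_5

theorem h10_7 : ∀ j < 5340, Holds potA 4308993 (regs.reg j) :=
  stepA 5280 recs10_7 ok10_7 5340 (by decide +kernel) h10_6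

theorem h10_8 : ∀ j < 5346, Holds potA 4308993 (regs.reg j) :=
  stepA 5340 recs10_8 ok10_8 5346 (by decide +kernel) h10_7

theorem h11_0 : ∀ j < 5406, Holds potA 4308993 (regs.reg j) :=
  stepA 5346 recs11_0 ok11_0 5406 (by decide +kernel) h10_8

theorem h11_1 : ∀ j < 5466, Holds potA 4308993 (regs.reg j) :=
  stepA 5406 recs11_1 ok11_1 5466 (by decide +kernel) h11_0

theorem h11_2 : ∀ j < 5526, Holds potA 4308993 (regs.reg j) :=
  stepA 5466 recs11_2 ok11_2 5526 (by decide +kernel) h11_1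

theorem h11_3 : ∀ j < 5586, Holds potA 4308993 (regs.reg j) :=
  stepA 5526 recs11_3 ok11_3 5586 (by decide +kernel) h11_2

theorem h11_4 : ∀ j < 5646, Holds potA 4308993 (regs.reg j) :=
  stepA 5586 recs11_4 ok11_4 5646 (by decide +kernel) h11_3

theorem h11_5 : ∀ j < 5706, Holds potA 4308993 (regs.reg j) :=
  stepA 5646 recs11_5 ok11_5 5706 (by decide +kernel) h11_4

theorem h11_6 : ∀ j < 5766, Holds potA 4308993 (regs.reg j) :=
  stepA 5706 recs11_6 ok11_6 5766 (by decide +kernel) h11_5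

theorem h11_7 : ∀ j < 5826, Holds potA 4308993 (regs.reg j) :=
  stepA 5766 recs11_7 ok11_7 5826 (by decide +kernel) h11_6

theorem h11_8 : ∀ j < 5832, Holds potA 4308993 (regs.reg j) :=
  stepA 5826 recs11_8 ok11_8 5832 (by decide +kernel) h11_7

theorem h12_0a : ∀ j < 5852, Holds potA 4308993 (regs.reg j) :=
  stepA 5832 recs12_0a ok12_0a 5852 (by decide +kernel) h11_8

theorem h12_0b : ∀ j < 5872, Holds potA 4308993 (regs.reg j) :=
  stepA 5852 recs12_0b ok12_0b 5872 (by decide +kernel) h12_0a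

theorem h12_0 : ∀ j < 5892, Holds potA 4308993 (regs.reg j) :=
  stepA 5872 recs12_0c ok12_0c 5892 (by decide +kernel) h12_0b

theorem h12_1 : ∀ j < 5952, Holds potA 4308993 (regs.reg j) :=
  stepA 5892 recs12_1 ok12_1 5952 (by decide +kernel) h12_0

theorem h12_2 : ∀ j < 6012, Holds potA 4308993 (regs.reg j) :=
  stepA 5952 recs12_2 ok12_2 6012 (by decide +kernel) h12_1

theorem h12_3 : ∀ j < 6072, Holds potA 4308993 (regs.reg j) :=
  stepA 6012 recs12_3 ok12_3 6072 (by decide +kernel) h12_2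

theorem h12_4 : ∀ j < 6132, Holds potA 4308993 (regs.reg j) :=
  stepA 6072 recs12_4 ok12_4 6132 (by decide +kernel) h12_3

theorem h12_5 : ∀ j < 6192, Holds potA 4308993 (regs.reg j) :=
  stepA 6132 recs12_5 ok12_5 6192 (by decide +kernel) h12_4

theorem h12_6 : ∀ j < 6252, Holds potA 4308993 (regs.reg j) :=
  stepA 6192 recs12_6 ok12_6 6252 (by decide +kernel) h12_5

theorem h12_7 : ∀ j < 6312, Holds potA 4308993 (regs.reg j) :=
  stepA 6252 recs12_7 ok12_7 6312 (by decide +kernel) h12_6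

theorem h12_8 : ∀ j < 6318, Holds potA 4308993 (regs.reg j) :=
  stepA 6312 recs12_8 ok12_8 6318 (by decide +kernel) h12_7

theorem h13_0 : ∀ j < 6378, Holds potA 4308993 (regs.reg j) :=
  stepA 6318 recs13_0 ok13_0 6378 (by decide +kernel) h12_8

theorem h13_1 : ∀ j < 6438, Holds potA 4308993 (regs.reg j) :=
  stepA 6378 recs13_1 ok13_1 6438 (by decide +kernel) h13_0

theorem h13_2 : ∀ j < 6498, Holds potA 4308993 (regs.reg j) :=
  stepA 6438 recs13_2 ok13_2 6498 (by decide +kernel) h13_1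

theorem h13_3 : ∀ j < 6558, Holds potA 4308993 (regs.reg j) :=
  stepA 6498 recs13_3 ok13_3 6558 (by decide +kernel) h13_2

theorem h13_4 : ∀ j < 6618, Holds potA 4308993 (regs.reg j) :=
  stepA 6558 recs13_4 ok13_4 6618 (by decide +kernel) h13_3

theorem h13_5 : ∀ j < 6678, Holds potA 4308993 (regs.reg j) :=
  stepA 6618 recs13_5 ok13_5 6678 (by decide +kernel) h13_4

theorem h13_6 : ∀ j < 6738, Holds potA 4308993 (regs.reg j) :=
  stepA 6678 recs13_6 ok13_6 6738 (by decide +kernel) h13_5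

theorem h13_7 : ∀ j < 6798, Holds potA 4308993 (regs.reg j) :=
  stepA 6738 recs13_7 ok13_7 6798 (by decide +kernel) h13_6

theorem h13_8 : ∀ j < 6804, Holds potA 4308993 (regs.reg j) :=
  stepA 6798 recs13_8 ok13_8 6804 (by decide +kernel) h13_7

theorem h14_0 : ∀ j < 6864, Holds potA 4308993 (regs.reg j) :=
  stepA 6804 recs14_0 ok14_0 6864 (by decide +kernel) h13_8

theorem h14_1 : ∀ j < 6924, Holds potA 4308993 (regs.reg j) :=
  stepA 6864 recs14_1 ok14_1 6924 (by decide +kernel) h14_0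

theorem h14_2 : ∀ j < 6984, Holds potA 4308993 (regs.reg j) :=
  stepA 6924 recs14_2 ok14_2 6984 (by decide +kernel) h14_1

theorem h14_3 : ∀ j < 7044, Holds potA 4308993 (regs.reg j) :=
  stepA 6984 recs14_3 ok14_3 7044 (by decide +kernel) h14_2

theorem h14_4 : ∀ j < 7104, Holds potA 4308993 (regs.reg j) :=
  stepA 7044 recs14_4 ok14_4 7104 (by decide +kernel) h14_3

theorem h14_5 : ∀ j < 7164, Holds potA 4308993 (regs.reg j) :=
  stepA 7104 recs14_5 ok14_5 7164 (by decide +kernel) h14_4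

theorem h14_6 : ∀ j < 7224, Holds potA 4308993 (regs.reg j) :=
  stepA 7164 recs14_6 ok14_6 7224 (by decide +kernel) h14_5

theorem h14_7 : ∀ j < 7284, Holds potA 4308993 (regs.reg j) :=
  stepA 7224 recs14_7 ok14_7 7284 (by decide +kernel) h14_6

theorem h14_8 : ∀ j < 7290, Holds potA 4308993 (regs.reg j) :=
  stepA 7284 recs14_8 ok14_8 7290 (by decide +kernel) h14_7

theorem h15_0 : ∀ j < 7350, Holds potA 4308993 (regs.reg j) :=
  stepA 7290 recs15_0 ok15_0 7350 (by decide +kernel) h14_8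

theorem h15_1 : ∀ j < 7410, Holds potA 4308993 (regs.reg j) :=
  stepA 7350 recs15_1 ok15_1 7410 (by decide +kernel) h15_0

theorem h15_2 : ∀ j < 7470, Holds potA 4308993 (regs.reg j) :=
  stepA 7410 recs15_2 ok15_2 7470 (by decide +kernel) h15_1

theorem h15_3 : ∀ j < 7530, Holds potA 4308993 (regs.reg j) :=
  stepA 7470 recs15_3 ok15_3 7530 (by decide +kernel) h15_2

theorem h15_4 : ∀ j < 7590, Holds potA 4308993 (regs.reg j) :=
  stepA 7530 recs15_4 ok15_4 7590 (by decide +kernel) h15_3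

theorem h15_5 : ∀ j < 7650, Holds potA 4308993 (regs.reg j) :=
  stepA 7590 recs15_5 ok15_5 7650 (by decide +kernel) h15_4

theorem h15_6 : ∀ j < 7710, Holds potA 4308993 (regs.reg j) :=
  stepA 7650 recs15_6 ok15_6 7710 (by decide +kernel) h15_5

theorem h15_7 : ∀ j < 7770, Holds potA 4308993 (regs.reg j) :=
  stepA 7710 recs15_7 ok15_7 7770 (by decide +kernel) h15_6

theorem h15_8 : ∀ j < 7776, Holds potA 4308993 (regs.reg j) :=
  stepA 7770 recs15_8 ok15_8 7776 (by decide +kernel) h15_7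

theorem h16_0 : ∀ j < 7836, Holds potA 4308993 (regs.reg j) :=
  stepA 7776 recs16_0 ok16_0 7836 (by decide +kernel) h15_8

theorem h16_1 : ∀ j < 7896, Holds potA 4308993 (regs.reg j) :=
  stepA 7836 recs16_1 ok16_1 7896 (by decide +kernel) h16_0

theorem h16_2 : ∀ j < 7956, Holds potA 4308993 (regs.reg j) :=
  stepA 7896 recs16_2 ok16_2 7956 (by decide +kernel) h16_1

theorem h16_3 : ∀ j < 8016, Holds potA 4308993 (regs.reg j) :=
  stepA 7956 recs16_3 ok16_3 8016 (by decide +kernel) h16_2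

theorem h16_4 : ∀ j < 8076, Holds potA 4308993 (regs.reg j) :=
  stepA 8016 recs16_4 ok16_4 8076 (by decide +kernel) h16_3

theorem h16_5 : ∀ j < 8136, Holds potA 4308993 (regs.reg j) :=
  stepA 8076 recs16_5 ok16_5 8136 (by decide +kernel) h16_4

theorem h16_6 : ∀ j < 8196, Holds potA 4308993 (regs.reg j) :=
  stepA 8136 recs16_6 ok16_6 8196 (by decide +kernel) h16_5

theorem h16_7 : ∀ j < 8256, Holds potA 4308993 (regs.reg j) :=
  stepA 8196 recs16_7 ok16_7 8256 (by decide +kernel) h16_6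

theorem h16_8 : ∀ j < 8262, Holds potA 4308993 (regs.reg j) :=
  stepA 8256 recs16_8 ok16_8 8262 (by decide +kernel) h16_7

theorem h17_0 : ∀ j < 8322, Holds potA 4308993 (regs.reg j) :=
  stepA 8262 recs17_0 ok17_0 8322 (by decide +kernel) h16_8

theorem h17_1 : ∀ j < 8382, Holds potA 4308993 (regs.reg j) :=
  stepA 8322 recs17_1 ok17_1 8382 (by decide +kernel) h17_0

theorem h17_2 : ∀ j < 8442, Holds potA 4308993 (regs.reg j) :=
  stepA 8382 recs17_2 ok17_2 8442 (by decide +kernel) h17_1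

theorem h17_3 : ∀ j < 8502, Holds potA 4308993 (regs.reg j) :=
  stepA 8442 recs17_3 ok17_3 8502 (by decide +kernel) h17_2

theorem h17_4 : ∀ j < 8562, Holds potA 4308993 (regs.reg j) :=
  stepA 8502 recs17_4 ok17_4 8562 (by decide +kernel) h17_3

theorem h17_5 : ∀ j < 8622, Holds potA 4308993 (regs.reg j) :=
  stepA 8562 recs17_5 ok17_5 8622 (by decide +kernel) h17_4

theorem h17_6 : ∀ j < 8682, Holds potA 4308993 (regs.reg j) :=
  stepA 8622 recs17_6 ok17_6 8682 (by decide +kernel) h17_5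

theorem h17_7 : ∀ j < 8742, Holds potA 4308993 (regs.reg j) :=
  stepA 8682 recs17_7 ok17_7 8742 (by decide +kernel) h17_6

theorem h17_8 : ∀ j < 8748, Holds potA 4308993 (regs.reg j) :=
  stepA 8742 recs17_8 ok17_8 8748 (by decide +kernel) h17_7

theorem h18_0 : ∀ j < 8808, Holds potA 4308993 (regs.reg j) :=
  stepA 8748 recs18_0 ok18_0 8808 (by decide +kernel) h17_8

theorem h18_1 : ∀ j < 8868, Holds potA 4308993 (regs.reg j) :=
  stepA 8808 recs18_1 ok18_1 8868 (by decide +kernel) h18_0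

theorem h18_2 : ∀ j < 8928, Holds potA 4308993 (regs.reg j) :=
  stepA 8868 recs18_2 ok18_2 8928 (by decide +kernel) h18_1

theorem h18_3 : ∀ j < 8988, Holds potA 4308993 (regs.reg j) :=
  stepA 8928 recs18_3 ok18_3 8988 (by decide +kernel) h18_2

theorem h18_4 : ∀ j < 9048, Holds potA 4308993 (regs.reg j) :=
  stepA 8988 recs18_4 ok18_4 9048 (by decide +kernel) h18_3

theorem h18_5 : ∀ j < 9108, Holds potA 4308993 (regs.reg j) :=
  stepA 9048 recs18_5 ok18_5 9108 (by decide +kernel) h18_4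

theorem h18_6 : ∀ j < 9168, Holds potA 4308993 (regs.reg j) :=
  stepA 9108 recs18_6 ok18_6 9168 (by decide +kernel) h18_5

theorem h18_7 : ∀ j < 9228, Holds potA 4308993 (regs.reg j) :=
  stepA 9168 recs18_7 ok18_7 9228 (by decide +kernel) h18_6

theorem h18_8 : ∀ j < 9234, Holds potA 4308993 (regs.reg j) :=
  stepA 9228 recs18_8 ok18_8 9234 (by decide +kernel) h18_7

theorem h19_0 : ∀ j < 9294, Holds potA 4308993 (regs.reg j) :=
  stepA 9234 recs19_0 ok19_0 9294 (by decide +kernel) h18_8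

theorem h19_1 : ∀ j < 9354, Holds potA 4308993 (regs.reg j) :=
  stepA 9294 recs19_1 ok19_1 9354 (by decide +kernel) h19_0

theorem h19_2 : ∀ j < 9414, Holds potA 4308993 (regs.reg j) :=
  stepA 9354 recs19_2 ok19_2 9414 (by decide +kernel) h19_1

theorem h19_3 : ∀ j < 9474, Holds potA 4308993 (regs.reg j) :=
  stepA 9414 recs19_3 ok19_3 9474 (by decide +kernel) h19_2

theorem h19_4 : ∀ j < 9534, Holds potA 4308993 (regs.reg j) :=
  stepA 9474 recs19_4 ok19_4 9534 (by decide +kernel) h19_3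

theorem h19_5 : ∀ j < 9594, Holds potA 4308993 (regs.reg j) :=
  stepA 9534 recs19_5 ok19_5 9594 (by decide +kernel) h19_4

theorem h19_6 : ∀ j < 9654, Holds potA 4308993 (regs.reg j) :=
  stepA 9594 recs19_6 ok19_6 9654 (by decide +kernel) h19_5

theorem h19_7 : ∀ j < 9714, Holds potA 4308993 (regs.reg j) :=
  stepA 9654 recs19_7 ok19_7 9714 (by decide +kernel) h19_6

theorem h19_8 : ∀ j < 9720, Holds potA 4308993 (regs.reg j) :=
  stepA 9714 recs19_8 ok19_8 9720 (by decide +kernel) h19_7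

theorem h20_0 : ∀ j < 9780, Holds potA 4308993 (regs.reg j) :=
  stepA 9720 recs20_0 ok20_0 9780 (by decide +kernel) h19_8

theorem h20_1 : ∀ j < 9840, Holds potA 4308993 (regs.reg j) :=
  stepA 9780 recs20_1 ok20_1 9840 (by decide +kernel) h20_0

theorem h20_2 : ∀ j < 9900, Holds potA 4308993 (regs.reg j) :=
  stepA 9840 recs20_2 ok20_2 9900 (by decide +kernel) h20_1

theorem h20_3 : ∀ j < 9960, Holds potA 4308993 (regs.reg j) :=
  stepA 9900 recs20_3 ok20_3 9960 (by decide +kernel) h20_2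

theorem h20_4 : ∀ j < 10020, Holds potA 4308993 (regs.reg j) :=
  stepA 9960 recs20_4 ok20_4 10020 (by decide +kernel) h20_3

theorem h20_5 : ∀ j < 10080, Holds potA 4308993 (regs.reg j) :=
  stepA 10020 recs20_5 ok20_5 10080 (by decide +kernel) h20_4

theorem h20_6 : ∀ j < 10140, Holds potA 4308993 (regs.reg j) :=
  stepA 10080 recs20_6 ok20_6 10140 (by decide +kernel) h20_5

theorem h20_7 : ∀ j < 10200, Holds potA 4308993 (regs.reg j) :=
  stepA 10140 recs20_7 ok20_7 10200 (by decide +kernel) h20_6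

theorem h20_8 : ∀ j < 10206, Holds potA 4308993 (regs.reg j) :=
  stepA 10200 recs20_8 ok20_8 10206 (by decide +kernel) h20_7

theorem h21_0 : ∀ j < 10266, Holds potA 4308993 (regs.reg j) :=
  stepA 10206 recs21_0 ok21_0 10266 (by decide +kernel) h20_8

theorem h21_1 : ∀ j < 10326, Holds potA 4308993 (regs.reg j) :=
  stepA 10266 recs21_1 ok21_1 10326 (by decide +kernel) h21_0

theorem h21_2 : ∀ j < 10386, Holds potA 4308993 (regs.reg j) :=
  stepA 10326 recs21_2 ok21_2 10386 (by decide +kernel) h21_1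

theorem h21_3 : ∀ j < 10446, Holds potA 4308993 (regs.reg j) :=
  stepA 10386 recs21_3 ok21_3 10446 (by decide +kernel) h21_2

theorem h21_4 : ∀ j < 10506, Holds potA 4308993 (regs.reg j) :=
  stepA 10446 recs21_4 ok21_4 10506 (by decide +kernel) h21_3

theorem h21_5 : ∀ j < 10566, Holds potA 4308993 (regs.reg j) :=
  stepA 10506 recs21_5 ok21_5 10566 (by decide +kernel) h21_4

theorem h21_6 : ∀ j < 10626, Holds potA 4308993 (regs.reg j) :=
  stepA 10566 recs21_6 ok21_6 10626 (by decide +kernel) h21_5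

theorem h21_7 : ∀ j < 10686, Holds potA 4308993 (regs.reg j) :=
  stepA 10626 recs21_7 ok21_7 10686 (by decide +kernel) h21_6

theorem h21_8 : ∀ j < 10692, Holds potA 4308993 (regs.reg j) :=
  stepA 10686 recs21_8 ok21_8 10692 (by decide +kernel) h21_7

theorem h22_0 : ∀ j < 10752, Holds potA 4308993 (regs.reg j) :=
  stepA 10692 recs22_0 ok22_0 10752 (by decide +kernel) h21_8

theorem h22_1 : ∀ j < 10812, Holds potA 4308993 (regs.reg j) :=
  stepA 10752 recs22_1 ok22_1 10812 (by decide +kernel) h22_0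

theorem h22_2 : ∀ j < 10872, Holds potA 4308993 (regs.reg j) :=
  stepA 10812 recs22_2 ok22_2 10872 (by decide +kernel) h22_1

theorem h22_3 : ∀ j < 10932, Holds potA 4308993 (regs.reg j) :=
  stepA 10872 recs22_3 ok22_3 10932 (by decide +kernel) h22_2

theorem h22_4 : ∀ j < 10992, Holds potA 4308993 (regs.reg j) :=
  stepA 10932 recs22_4 ok22_4 10992 (by decide +kernel) h22_3

theorem h22_5 : ∀ j < 11052, Holds potA 4308993 (regs.reg j) :=
  stepA 10992 recs22_5 ok22_5 11052 (by decide +kernel) h22_4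

theorem h22_6 : ∀ j < 11112, Holds potA 4308993 (regs.reg j) :=
  stepA 11052 recs22_6 ok22_6 11112 (by decide +kernel) h22_5

theorem h22_7 : ∀ j < 11172, Holds potA 4308993 (regs.reg j) :=
  stepA 11112 recs22_7 ok22_7 11172 (by decide +kernel) h22_6

theorem h22_8 : ∀ j < 11178, Holds potA 4308993 (regs.reg j) :=
  stepA 11172 recs22_8 ok22_8 11178 (by decide +kernel) h22_7

theorem h23_0 : ∀ j < 11238, Holds potA 4308993 (regs.reg j) :=
  stepA 11178 recs23_0 ok23_0 11238 (by decide +kernel) h22_8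

theorem h23_1 : ∀ j < 11298, Holds potA 4308993 (regs.reg j) :=
  stepA 11238 recs23_1 ok23_1 11298 (by decide +kernel) h23_0

theorem h23_2 : ∀ j < 11358, Holds potA 4308993 (regs.reg j) :=
  stepA 11298 recs23_2 ok23_2 11358 (by decide +kernel) h23_1

theorem h23_3 : ∀ j < 11418, Holds potA 4308993 (regs.reg j) :=
  stepA 11358 recs23_3 ok23_3 11418 (by decide +kernel) h23_2

theorem h23_4 : ∀ j < 11478, Holds potA 4308993 (regs.reg j) :=
  stepA 11418 recs23_4 ok23_4 11478 (by decide +kernel) h23_3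

theorem h23_5 : ∀ j < 11538, Holds potA 4308993 (regs.reg j) :=
  stepA 11478 recs23_5 ok23_5 11538 (by decide +kernel) h23_4

theorem h23_6 : ∀ j < 11598, Holds potA 4308993 (regs.reg j) :=
  stepA 11538 recs23_6 ok23_6 11598 (by decide +kernel) h23_5

theorem h23_7 : ∀ j < 11654, Holds potA 4308993 (regs.reg j) :=
  stepA 11598 recs23_7 ok23_7 11654 (by decide +kernel) h23_6

theorem last : regs.reg 11653 = [] := by decide +kernel

theorem holdsA : Holds potA 4308993 [] := by
  have h := h23_7 11653 (by norm_num)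
  rwa [last] at h

end Pool.Agent.Helper22.QC.A
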